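import Pool.Agent.Q49.TG.CovMain

/-!
# Gaussian DAG ideals with large d-separating sets are not toric

The definitions (directed acyclic graphs, the covariance matrices of the Gaussian DAG model, the
vanishing ideal `I_G`, d-separation, toric ideals) are in `Pool.Agent.Q49.TG.DSepDef`.
-/

set_option autoImplicit false

namespace Pool.Agent.Results.MP_3a69bf_ag.LargeSeparatorsNotToric

open Q49.TG

/-- Let `i` and `j` be nonadjacent vertices of a directed acyclic graph `G` such that every
d-separating set of `i` and `j` has at least two elements. Then `I_G` is not toric; it is not even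
generated by polynomials with at most two terms. -/
theorem result (n : ℕ) (G : ADag n) (i j : Fin n) (hne : i ≠ j) (hij : ¬ G.edge i j)
    (hji : ¬ G.edge j i)
    (hmin : ∀ C : Finset (Fin n), i ∉ C → j ∉ C → G.DSeparates C i j → 2 ≤ C.card) :
    ¬ IsToricIdeal G.vanishingIdeal ∧ ¬ GeneratedByBinomials G.vanishingIdeal := by
  have h : ¬ GeneratedByBinomials G.vanishingIdeal := by
    intro h
    obtain ⟨C, hC, h1, h2, h3⟩ := ADag.exists_dsep h hne hij hji
    have := hmin C h1 h2 h3
    omega
  exact ⟨fun h1 => h h1.2, h⟩

end Pool.Agent.Results.MP_3a69bf_ag.LargeSeparatorsNotToric
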